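import Pool.Agent.helper55.NM.Spec2
import Pool.Agent.helper55.NK.Base

/-! Row `nm:FPM` (MP_7e34bc_co). -/

set_option autoImplicit false

namespace Pool.Agent.helper6.NM

open Pool.Agent.NM Pool.Agent.helper72.UP Finset Nat

theorem FPM (hUPC : Pool.Agent.helper72.UP.UPC_stmt) (hASM : ASM_stmt) (hFLR : FLR_stmt) :
    FPM_stmt := by
  intro ε hε
  obtain ⟨n1, h1⟩ := hASM ε hε
  obtain ⟨n2, h2⟩ := hFLR ε hε
  refine ⟨max n1 n2, fun n k hn hk1 hk2 => ?_⟩
  obtain ⟨hq, h2k, hkn⟩ := h2 n k (le_trans (le_max_right _ _) hn) hk1 hk2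
  have hU := Pool.Agent.NK.Base.uniform_result n k (by omega) hkn
  rw [if_neg (by omega)] at hU
  constructor
  · obtain ⟨S, hS1, hS2, hS3⟩ := hU.1
    refine ⟨S, fun v hv => ⟨(hS1 v hv).1, ?_, (hS1 v hv).2.le⟩, hS2, hS3⟩
    rintro rfl
    have h3 := (hS1 0 hv).2
    have h4 : univ.filter (fun i : Fin n => (0 : Fin n → ℝ) i = 1) = ∅ := by
      rw [filter_eq_empty_iff]
      intro i _ h
      simp at h
    rw [h4, card_empty] at h3
    omega
  · intro m hm
    obtain ⟨x, hx, hmx⟩ := hUPC n k m hm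
    have h3 := h1 n k x (le_trans (le_max_left _ _) hn) hk1 hk2 hx
    rw [hq]
    exact hmx.trans h3

end Pool.Agent.helper6.NM
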